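import Pool.Graph.R_pool_sql_team_seeded_3997aac3.Q265.PR.C
import Pool.Agent.H693.SR.Stm

set_option autoImplicit false

/-! # SR-K (helper299 for helper693): many `l`-th power nonresidues below `p ^ δ` for large `l` -/

namespace H299.SR

open Finset Pool.Agent.H471R4.BW Pool.Agent.Q265.PR

/-- the number of the multiples of `q` up to `X` -/
lemma card_mult (X q : ℕ) : (#((Icc 1 X).filter (fun m => q ∣ m)) : ℝ) ≤ X * (1 / (q : ℝ)) := by
  have h : #((Icc 1 X).filter (fun m => q ∣ m)) = X / q := by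
    have := Nat.Ioc_filter_dvd_card_eq_div X q
    rw [← this]
    congr 1
  rw [h, mul_one_div]
  exact Nat.cast_div_le

theorem t_K : H693SR.S_K := by
  classical
  intro δ hδ
  set κ : ℝ := min δ 1 with hκ
  have hκ0 : 0 < κ := lt_min hδ one_pos
  obtain ⟨c, hc0, D0, hD0⟩ := smo κ hκ0 (min_le_right _ _)
  obtain ⟨N0, hN0⟩ := bfm (bin (mom tup) nu1 nu2b shf hol) (1 / 8) (c / 4) 1 (fun r => 2 * (r : ℝ))
    (by norm_num) (by positivity) one_pos (fun r => by positivity)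
  obtain ⟨K, hK⟩ := exists_nat_gt (4 / c)
  have hev := (tendsto_rpow_atTop (show (0 : ℝ) < 1 / 8 by norm_num)).comp
    tendsto_natCast_atTop_atTop |>.eventually_ge_atTop (2 : ℝ)
  obtain ⟨p1, hp1⟩ := Filter.eventually_atTop.1 hev
  refine ⟨c / 2, K, max N0 (max p1 (max (D0 ^ 2) 4)), by positivity, fun p hp hpp l hl hKl hd => ?_⟩
  have hpN : N0 ≤ p := (le_max_left _ _).trans hp
  have hpp1 : p1 ≤ p := ((le_max_left _ _).trans (le_max_right _ _)).trans hp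
  have hpD : D0 ^ 2 ≤ p :=
    (((le_max_left _ _).trans (le_max_right _ _)).trans (le_max_right _ _)).trans hp
  have hp4 : 4 ≤ p :=
    (((le_max_right _ _).trans (le_max_right _ _)).trans (le_max_right _ _)).trans hp
  have : Fact p.Prime := ⟨hpp⟩
  have : NeZero p := ⟨hpp.ne_zero⟩
  obtain ⟨χ, hχ⟩ := exists_chi p l hl hd
  have hχl : χ ^ l = 1 := by rw [← hχ]; exact pow_orderOf_eq_one χ
  set Q := (Icc 1 ⌊(p : ℝ) ^ δ⌋₊).filter
        (fun q : ℕ => q.Prime ∧ ((q : ℕ) : ZMod p) ^ ((p - 1) / l) ≠ 1) with hQ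
  set X : ℕ := Nat.sqrt p with hX
  have hXX : X * X ≤ p := Nat.sqrt_le p
  have hXX2 : p < (X + 1) * (X + 1) := Nat.lt_succ_sqrt p
  have hX1 : 2 ≤ X := by
    by_contra hc
    have : X ≤ 1 := by omega
    have : (X + 1) * (X + 1) ≤ 2 * 2 := Nat.mul_le_mul (by omega) (by omega)
    omega
  have hXp : X < p := by nlinarith
  have hppos : (0 : ℝ) < p := by exact_mod_cast hpp.pos
  have hXr : (X : ℝ) ≤ Real.sqrt p := by
    apply Real.le_sqrt_of_sq_le
    rw [pow_two]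
    exact_mod_cast hXX
  have hXlow : (p : ℝ) ^ ((1 : ℝ) / 4 + 1 / 8) ≤ X := by
    have h1 : Real.sqrt p < X + 1 := by
      rw [Real.sqrt_lt' (by positivity), pow_two]
      exact_mod_cast hXX2
    have h2 : Real.sqrt p = (p : ℝ) ^ ((1 : ℝ) / 4 + 1 / 8) * (p : ℝ) ^ ((1 : ℝ) / 8) := by
      rw [← Real.rpow_add hppos, Real.sqrt_eq_rpow]
      norm_num
    have h3 : (2 : ℝ) ≤ (p : ℝ) ^ ((1 : ℝ) / 8) := hp1 p hpp1
    have h4 : (1 : ℝ) ≤ (p : ℝ) ^ ((1 : ℝ) / 4 + 1 / 8) :=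
      Real.one_le_rpow (by exact_mod_cast hpp.one_lt.le) (by norm_num)
    rw [h2] at h1
    nlinarith
  have hsum : ∀ ψ : DirichletCharacter ℂ p, ψ ≠ 1 → ‖shortSum p ψ X‖ ≤ c / 4 * X := fun ψ hψ =>
    hN0 p hpN ψ (Pool.Agent.Y165.HN.fam_all p ψ hψ) X hXlow hXr
  have hcount := count_one p l X hl hXp χ hχ (c / 4) hsum (by positivity)
  -- smooth numbers
  have hDD : D0 ≤ X + 1 := by
    by_contra hc
    have h1 : X + 2 ≤ D0 := by omega
    have h2 : (X + 1) * (X + 1) < D0 ^ 2 := by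
      rw [pow_two]
      exact Nat.mul_lt_mul'' (by omega) (by omega)
    omega
  obtain ⟨S, hS1, hS2⟩ := hD0 (X + 1) hDD
  have hSsub : S ⊆ (Icc 1 X).filter (fun m : ℕ => χ ((m : ℕ) : ZMod p) = 1) ∪
      Q.biUnion (fun q => (Icc 1 X).filter (fun m => q ∣ m)) := by
    intro s hs
    obtain ⟨h1, h2, h3⟩ := hS1 s hs
    have hsX : s ∈ Icc 1 X := by rw [mem_Icc]; omega
    by_cases hq : ∃ q ∈ Q, q ∣ s
    · obtain ⟨q, hqQ, hqs⟩ := hq
      exact mem_union_right _ (mem_biUnion.2 ⟨q, hqQ, mem_filter.2 ⟨hsX, hqs⟩⟩)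
    · push Not at hq
      refine mem_union_left _ (mem_filter.2 ⟨hsX, ?_⟩)
      apply vin_one p χ s (by omega)
      intro q hq1 hqs
      refine chi_one p l hl hd χ hχl _ ?_
      by_contra hne
      refine hq q ?_ hqs
      rw [hQ, mem_filter, mem_Icc]
      refine ⟨⟨hq1.one_lt.le, ?_⟩, hq1, hne⟩
      apply Nat.le_floor
      refine (h3 q hq1 hqs).trans ?_
      have h4 : ((X + 1 : ℕ) : ℝ) ≤ p := by exact_mod_cast (show X + 1 ≤ p by omega)
      calc ((X + 1 : ℕ) : ℝ) ^ κ ≤ (p : ℝ) ^ κ := Real.rpow_le_rpow (by positivity) h4 hκ0.le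
        _ ≤ (p : ℝ) ^ δ := Real.rpow_le_rpow_of_exponent_le (by exact_mod_cast hpp.one_lt.le)
            (min_le_left _ _)
  have hcard := (card_le_card hSsub).trans ((card_union_le _ _).trans
    (add_le_add le_rfl card_biUnion_le))
  have hmult : ((∑ q ∈ Q, #((Icc 1 X).filter (fun m => q ∣ m)) : ℕ) : ℝ) ≤
      X * ∑ q ∈ Q, (1 : ℝ) / q := by
    rw [Nat.cast_sum, mul_sum]
    exact sum_le_sum fun q _ => card_mult X q
  have h5 : c * ((X + 1 : ℕ) : ℝ) ≤ #{m ∈ Icc 1 X | χ ((m : ℕ) : ZMod p) = 1} +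
      X * ∑ q ∈ Q, (1 : ℝ) / q := by
    refine hS2.trans ?_
    refine le_trans (b := ((#{m ∈ Icc 1 X | χ ((m : ℕ) : ZMod p) = 1} +
      ∑ q ∈ Q, #((Icc 1 X).filter (fun m => q ∣ m)) : ℕ) : ℝ)) (by exact_mod_cast hcard) ?_
    rw [Nat.cast_add]
    linarith
  have hl0 : (0 : ℝ) < l := by exact_mod_cast hl.pos
  have hlc : 4 ≤ c * l := by
    have h6 : (K : ℝ) ≤ l := by exact_mod_cast hKl
    have h7 : 4 / c < l := lt_of_lt_of_le hK h6
    rw [div_lt_iff₀ hc0] at h7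
    linarith
  have hX0 : (0 : ℝ) < X := by exact_mod_cast (show 0 < X by omega)
  push_cast at h5
  by_contra hlt
  push Not at hlt
  have h8 : (l : ℝ) * (c * (X + 1)) ≤ X + l * (c / 4 * X) + l * (X * (c / 2)) := by
    have h9 : (X : ℝ) * ∑ q ∈ Q, (1 : ℝ) / q ≤ X * (c / 2) :=
      mul_le_mul_of_nonneg_left hlt.le hX0.le
    have h10 := mul_le_mul_of_nonneg_left (h5.trans (add_le_add le_rfl h9)) hl0.le
    rw [mul_add] at h10
    linarith
  nlinarith [mul_pos hl0 hc0, mul_le_mul_of_nonneg_right hlc hX0.le]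

end H299.SR

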